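import Mathlib
import Pool.Agent.X263.CDGA.Cone

/-!
A rational Poincaré duality algebra of signature zero which is not quasi-isomorphic to any
semi-trivial mapping cone `Q ⊕_Ψ s s^{-n} #Q`.

The helper file `Pool.Agent.X263.CDGA.Cone` treats the same notions with differentials and products
bundled as linear maps; here are the versions with plain functions, used in the main theorem.
-/

set_option autoImplicit false

universe u

open Pool.Agent.X263.CDGA

namespace Pool.Agent.Results.MP_43ef35_gt.AnisotropicForm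

/-! ## The objects of the problem -/

/-- The data underlying a differential graded algebra over `ℚ` (graded by the integers, with
differential of degree `+1`), without axioms. The index `h : i + j = k` of a multiplication only
records the degree of the target. -/
structure PreAlg where
  /-- the homogeneous components -/
  X : ℤ → Type u
  [acg : ∀ i, AddCommGroup (X i)]
  [mod : ∀ i, Module ℚ (X i)]
  /-- the differential -/
  d : ∀ i j, i + 1 = j → X i → X j
  /-- the multiplication -/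
  mul : ∀ i j k, i + j = k → X i → X j → X k
  /-- the unit -/
  one : X 0

attribute [instance] PreAlg.acg PreAlg.mod

namespace PreAlg

/-- The differential is linear. -/
def LinearDiff (A : PreAlg.{u}) : Prop :=
  (∀ i j h (x y : A.X i), A.d i j h (x + y) = A.d i j h x + A.d i j h y) ∧
    ∀ i j h (c : ℚ) (x : A.X i), A.d i j h (c • x) = c • A.d i j h x

/-- The product is additive in both variables. -/
def BiadditiveMul (A : PreAlg.{u}) : Prop :=
  (∀ i j k h (x y : A.X i) (z : A.X j),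
      A.mul i j k h (x + y) z = A.mul i j k h x z + A.mul i j k h y z) ∧
    ∀ i j k h (x : A.X i) (y z : A.X j),
      A.mul i j k h x (y + z) = A.mul i j k h x y + A.mul i j k h x z

/-- The product is homogeneous in both variables. -/
def HomogeneousMul (A : PreAlg.{u}) : Prop :=
  (∀ i j k h (c : ℚ) (x : A.X i) (y : A.X j), A.mul i j k h (c • x) y = c • A.mul i j k h x y) ∧
    ∀ i j k h (c : ℚ) (x : A.X i) (y : A.X j), A.mul i j k h x (c • y) = c • A.mul i j k h x y

/-- `d² = 0`. -/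
def DiffSqZero (A : PreAlg.{u}) : Prop :=
  ∀ i j k (hij : i + 1 = j) (hjk : j + 1 = k) (x : A.X i), A.d j k hjk (A.d i j hij x) = 0

/-- The unit law. -/
def UnitLaw (A : PreAlg.{u}) : Prop := ∀ i (h : 0 + i = i) (x : A.X i), A.mul 0 i i h A.one x = x

/-- Associativity. -/
def Assoc (A : PreAlg.{u}) : Prop :=
  ∀ i j k ij jk ijk (h1 : i + j = ij) (h2 : ij + k = ijk) (h3 : j + k = jk)
    (h4 : i + jk = ijk) (x : A.X i) (y : A.X j) (z : A.X k),
    A.mul ij k ijk h2 (A.mul i j ij h1 x y) z = A.mul i jk ijk h4 x (A.mul j k jk h3 y z)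

/-- Graded commutativity. -/
def GradedComm (A : PreAlg.{u}) : Prop :=
  ∀ i j k (h : i + j = k) (h' : j + i = k) (x : A.X i) (y : A.X j),
    A.mul i j k h x y = sgn (i * j) • A.mul j i k h' y x

/-- The Leibniz rule. -/
def Leibniz (A : PreAlg.{u}) : Prop :=
  ∀ i j k i' j' k' (h : i + j = k) (hi : i + 1 = i') (hj : j + 1 = j') (hk : k + 1 = k')
    (h1 : i' + j = k') (h2 : i + j' = k') (x : A.X i) (y : A.X j),
    A.d k k' hk (A.mul i j k h x y) =
      A.mul i' j k' h1 (A.d i i' hi x) y + sgn i • A.mul i j' k' h2 x (A.d j j' hj y)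

end PreAlg

/-- A commutative differential graded algebra over `ℚ`, graded by the integers, with a differential
of degree `+1`. (The algebras of the problem are those which vanish in negative degrees, see
`IsNonneg`.) -/
structure CDGA extends PreAlg.{u} where
  linear_d : toPreAlg.LinearDiff
  biadditive : toPreAlg.BiadditiveMul
  homogeneous : toPreAlg.HomogeneousMul
  d_d : toPreAlg.DiffSqZero
  one_mul : toPreAlg.UnitLaw
  assoc : toPreAlg.Assoc
  comm : toPreAlg.GradedComm
  leibniz : toPreAlg.Leibniz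

/-- The algebra vanishes in negative degrees. -/
def CDGA.IsNonneg (A : CDGA.{u}) : Prop := ∀ i, i < 0 → ∀ x : A.X i, x = 0

/-- The data underlying a differential graded module over `Q`, without axioms. -/
structure PreMod (Q : PreAlg.{u}) where
  /-- the homogeneous components -/
  X : ℤ → Type u
  [acg : ∀ i, AddCommGroup (X i)]
  [mod : ∀ i, Module ℚ (X i)]
  /-- the differential -/
  d : ∀ i j, i + 1 = j → X i → X j
  /-- the action of `Q` -/
  act : ∀ i j k, i + j = k → Q.X i → X j → X k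

attribute [instance] PreMod.acg PreMod.mod

namespace PreMod

variable {Q : PreAlg.{u}}

/-- The differential is linear. -/
def LinearDiff (M : PreMod Q) : Prop :=
  (∀ i j h (x y : M.X i), M.d i j h (x + y) = M.d i j h x + M.d i j h y) ∧
    ∀ i j h (c : ℚ) (x : M.X i), M.d i j h (c • x) = c • M.d i j h x

/-- The action is additive in both variables. -/
def BiadditiveAct (M : PreMod Q) : Prop :=
  (∀ i j k h (x y : Q.X i) (z : M.X j),
      M.act i j k h (x + y) z = M.act i j k h x z + M.act i j k h y z) ∧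
    ∀ i j k h (x : Q.X i) (y z : M.X j),
      M.act i j k h x (y + z) = M.act i j k h x y + M.act i j k h x z

/-- The action is homogeneous in both variables. -/
def HomogeneousAct (M : PreMod Q) : Prop :=
  (∀ i j k h (c : ℚ) (x : Q.X i) (y : M.X j), M.act i j k h (c • x) y = c • M.act i j k h x y) ∧
    ∀ i j k h (c : ℚ) (x : Q.X i) (y : M.X j), M.act i j k h x (c • y) = c • M.act i j k h x y

/-- `d² = 0`. -/
def DiffSqZero (M : PreMod Q) : Prop :=
  ∀ i j k (hij : i + 1 = j) (hjk : j + 1 = k) (x : M.X i), M.d j k hjk (M.d i j hij x) = 0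

/-- The unit acts as the identity. -/
def UnitLaw (M : PreMod Q) : Prop := ∀ i (h : 0 + i = i) (x : M.X i), M.act 0 i i h Q.one x = x

/-- Associativity of the action. -/
def Assoc (M : PreMod Q) : Prop :=
  ∀ i j k ij jk ijk (h1 : i + j = ij) (h2 : ij + k = ijk) (h3 : j + k = jk)
    (h4 : i + jk = ijk) (x : Q.X i) (y : Q.X j) (z : M.X k),
    M.act ij k ijk h2 (Q.mul i j ij h1 x y) z = M.act i jk ijk h4 x (M.act j k jk h3 y z)

/-- The Leibniz rule. -/
def Leibniz (M : PreMod Q) : Prop :=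
  ∀ i j k i' j' k' (h : i + j = k) (hi : i + 1 = i') (hj : j + 1 = j') (hk : k + 1 = k')
    (h1 : i' + j = k') (h2 : i + j' = k') (x : Q.X i) (y : M.X j),
    M.d k k' hk (M.act i j k h x y) =
      M.act i' j k' h1 (Q.d i i' hi x) y + sgn i • M.act i j' k' h2 x (M.d j j' hj y)

end PreMod

/-- A differential graded module over `Q`. -/
structure DGMod (Q : CDGA.{u}) extends PreMod Q.toPreAlg where
  linear_d : toPreMod.LinearDiff
  biadditive : toPreMod.BiadditiveAct
  homogeneous : toPreMod.HomogeneousAct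
  d_d : toPreMod.DiffSqZero
  one_act : toPreMod.UnitLaw
  assoc : toPreMod.Assoc
  leibniz : toPreMod.Leibniz

/-- A morphism of `Q`-dg-modules `Ψ : M → Q`; `Ψ.f i j h` is the component of `Ψ` in degree
`i = j`. -/
structure DGMod.ToAlg {Q : CDGA.{u}} (M : DGMod Q) where
  /-- the components -/
  f : ∀ i j, i = j → M.X i → Q.X j
  map_add : ∀ i j h (x y : M.X i), f i j h (x + y) = f i j h x + f i j h y
  map_smul : ∀ i j h (c : ℚ) (x : M.X i), f i j h (c • x) = c • f i j h x
  map_d : ∀ i j (h : i + 1 = j) (x : M.X i), f j j rfl (M.d i j h x) = Q.d i j h (f i i rfl x)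
  map_act : ∀ i j k (h : i + j = k) (a : Q.X i) (x : M.X j),
    f k k rfl (M.act i j k h a x) = Q.mul i j k h a (f j j rfl x)

/-- `Ψ` is balanced: `Ψ(x) · y = x · Ψ(y)`, where the right action of `Q` on `M` is
`x · a = (-1)^{|x||a|} a · x`. -/
def DGMod.ToAlg.Balanced {Q : CDGA.{u}} {M : DGMod Q} (Ψ : M.ToAlg) : Prop :=
  ∀ i j k (h : i + j = k) (h' : j + i = k) (x : M.X i) (y : M.X j),
    M.act i j k h (Ψ.f i i rfl x) y = sgn (i * j) • M.act j i k h' (Ψ.f j j rfl y) x

section Outer

variable {Q : CDGA.{u}}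

/-- The bundled version of `A`. -/
def CDGA.toL (A : CDGA.{u}) : LCDGA.{u} where
  X := A.X
  d i j h :=
    { toFun := A.d i j h
      map_add' := A.linear_d.1 i j h
      map_smul' := A.linear_d.2 i j h }
  mul i j k h := LinearMap.mk₂ ℚ (A.mul i j k h) (A.biadditive.1 i j k h)
    (A.homogeneous.1 i j k h) (A.biadditive.2 i j k h) (fun c x y => A.homogeneous.2 i j k h c x y)
  one := A.one
  d_d := A.d_d
  one_mul := A.one_mul
  assoc := A.assoc
  comm := A.comm
  leibniz := A.leibniz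

/-- The bundled version of `M`. -/
def DGMod.toL (M : DGMod Q) : LMod Q.toL where
  X := M.X
  d i j h :=
    { toFun := M.d i j h
      map_add' := M.linear_d.1 i j h
      map_smul' := M.linear_d.2 i j h }
  act i j k h := LinearMap.mk₂ ℚ (M.act i j k h) (M.biadditive.1 i j k h)
    (M.homogeneous.1 i j k h) (M.biadditive.2 i j k h) (fun c x y => M.homogeneous.2 i j k h c x y)
  d_d := M.d_d
  one_act := M.one_act
  assoc := M.assoc
  leibniz := M.leibniz

/-- The differential as a linear map. -/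
def CDGA.dL (A : CDGA.{u}) (i j : ℤ) (h : i + 1 = j) : A.X i →ₗ[ℚ] A.X j where
  toFun := A.d i j h
  map_add' := A.linear_d.1 i j h
  map_smul' := A.linear_d.2 i j h

/-- Left multiplication by `a` as a linear map. -/
def CDGA.lmul (A : CDGA.{u}) (i j k : ℤ) (h : i + j = k) (a : A.X i) : A.X j →ₗ[ℚ] A.X k where
  toFun := A.mul i j k h a
  map_add' := A.biadditive.2 i j k h a
  map_smul' c := A.homogeneous.2 i j k h c a

theorem aux_sub {n i j : ℤ} (h : i + 1 = j) : (n - j) + 1 = n - i := by omega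
theorem aux_sub' {n i j k : ℤ} (h : i + j = k) : i + (n - k) = n - j := by omega

/-- The data of the dg-module `s^{-n} #Q`: its component of degree `p` is the dual of the component
of `Q` of degree `n - p`, the action is `(a · φ)(x) = (-1)^{|a||φ|} φ(a x)` and the differential is
`(dφ)(x) = (-1)^{|φ|+1} φ(dx)`. -/
noncomputable def preDualShift (Q : CDGA.{u}) (n : ℤ) : PreMod Q.toPreAlg where
  X p := Module.Dual ℚ (Q.X (n - p))
  d i j h φ := sgn (i + 1) • (φ ∘ₗ Q.dL (n - j) (n - i) (aux_sub h))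
  act i j k h a φ := sgn (i * j) • (φ ∘ₗ Q.lmul i (n - k) (n - j) (aux_sub' h) a)

theorem dualShift_linear (Q : CDGA.{u}) (n : ℤ) : (preDualShift Q n).LinearDiff :=
  ⟨fun i j h φ ψ => map_add ((dualShiftL Q.toL n).d i j h) φ ψ,
    fun i j h c φ => map_smul ((dualShiftL Q.toL n).d i j h) c φ⟩

theorem dualShift_biadditive (Q : CDGA.{u}) (n : ℤ) : (preDualShift Q n).BiadditiveAct :=
  ⟨fun i j k h a b φ =>
      (congrFun (congrArg DFunLike.coe (map_add ((dualShiftL Q.toL n).act i j k h) a b)) φ),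
    fun i j k h a φ ψ => map_add ((dualShiftL Q.toL n).act i j k h a) φ ψ⟩

theorem dualShift_homogeneous (Q : CDGA.{u}) (n : ℤ) : (preDualShift Q n).HomogeneousAct :=
  ⟨fun i j k h c a φ =>
      (congrFun (congrArg DFunLike.coe (map_smul ((dualShiftL Q.toL n).act i j k h) c a)) φ),
    fun i j k h c a φ => map_smul ((dualShiftL Q.toL n).act i j k h a) c φ⟩

theorem dualShift_d_d (Q : CDGA.{u}) (n : ℤ) : (preDualShift Q n).DiffSqZero :=
  (dualShiftL Q.toL n).d_d

theorem dualShift_one_act (Q : CDGA.{u}) (n : ℤ) : (preDualShift Q n).UnitLaw :=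
  (dualShiftL Q.toL n).one_act

theorem dualShift_assoc (Q : CDGA.{u}) (n : ℤ) : (preDualShift Q n).Assoc :=
  (dualShiftL Q.toL n).assoc

theorem dualShift_leibniz (Q : CDGA.{u}) (n : ℤ) : (preDualShift Q n).Leibniz :=
  (dualShiftL Q.toL n).leibniz

/-- The dg-module `s^{-n} #Q`: its component of degree `p` is the dual of the component of `Q` of
degree `n - p`, the action is `(a · φ)(x) = (-1)^{|a||φ|} φ(a x)` and the differential is
`(dφ)(x) = (-1)^{|φ|+1} φ(dx)`. -/
noncomputable def dualShift (Q : CDGA.{u}) (n : ℤ) : DGMod Q where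
  toPreMod := preDualShift Q n
  linear_d := dualShift_linear Q n
  biadditive := dualShift_biadditive Q n
  homogeneous := dualShift_homogeneous Q n
  d_d := dualShift_d_d Q n
  one_act := dualShift_one_act Q n
  assoc := dualShift_assoc Q n
  leibniz := dualShift_leibniz Q n

theorem dualShift_toL (n : ℤ) : (dualShift Q n).toL = dualShiftL Q.toL n := rfl

variable {M : DGMod Q}

/-- The bundled version of `Ψ`. -/
def DGMod.ToAlg.toL (Ψ : M.ToAlg) : M.toL.ToAlg where
  f i :=
    { toFun := Ψ.f i i rfl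
      map_add' := Ψ.map_add i i rfl
      map_smul' := Ψ.map_smul i i rfl }
  map_d := Ψ.map_d
  map_act := Ψ.map_act

theorem DGMod.ToAlg.Balanced.toL {Ψ : M.ToAlg} (h : Ψ.Balanced) : Ψ.toL.Balanced := h

theorem DGMod.ToAlg.toL_g (Ψ : M.ToAlg) (i j : ℤ) (h : i = j) (x : M.X i) :
    Ψ.toL.g i j h x = Ψ.f i j h x := by
  subst h
  rfl

theorem aux_succ {i j : ℤ} (h : i + 1 = j) : (i + 1) + 1 = j + 1 := by omega
theorem aux_r {i j k : ℤ} (h : i + j = k) : i + (j + 1) = k + 1 := by omega
theorem aux_l {i j k : ℤ} (h : i + j = k) : j + (i + 1) = k + 1 := by omega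

/-- The differential of the cone, `δ(q, sm) = (dq + Ψ(m), -s dm)`. -/
def coneD (Ψ : M.ToAlg) (i j : ℤ) (h : i + 1 = j) (x : Q.X i × M.X (i + 1)) :
    Q.X j × M.X (j + 1) :=
  (Q.d i j h x.1 + Ψ.f (i + 1) j h x.2, - M.d (i + 1) (j + 1) (aux_succ h) x.2)

/-- The component in `sM` of the product of the cone. -/
def coneMulSnd (M : DGMod Q) (i j k : ℤ) (h : i + j = k) (x : Q.X i × M.X (i + 1))
    (y : Q.X j × M.X (j + 1)) : M.X (k + 1) :=
  sgn i • M.act i (j + 1) (k + 1) (aux_r h) x.1 y.2 +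
    sgn (i * j + j) • M.act j (i + 1) (k + 1) (aux_l h) y.1 x.2

/-- The product of the cone. -/
def coneMul (M : DGMod Q) (i j k : ℤ) (h : i + j = k) (x : Q.X i × M.X (i + 1))
    (y : Q.X j × M.X (j + 1)) : Q.X k × M.X (k + 1) :=
  (Q.mul i j k h x.1 y.1, coneMulSnd M i j k h x y)

theorem coneD_eq (Ψ : M.ToAlg) (hΨ : Ψ.Balanced) (i j : ℤ) (h : i + 1 = j)
    (x : Q.X i × M.X (i + 1)) : coneD Ψ i j h x = (coneL Ψ.toL hΨ.toL).d i j h x := by
  have h1 : Ψ.f (i + 1) j h x.2 = Ψ.toL.g (i + 1) j h x.2 := (Ψ.toL_g _ _ _ _).symm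
  exact Prod.ext (congrArg (fun t : Q.X j => Q.d i j h x.1 + t) h1) rfl

theorem coneMul_eq (Ψ : M.ToAlg) (hΨ : Ψ.Balanced) (i j k : ℤ) (h : i + j = k)
    (x : Q.X i × M.X (i + 1)) (y : Q.X j × M.X (j + 1)) :
    coneMul M i j k h x y = (coneL Ψ.toL hΨ.toL).mul i j k h x y := rfl

/-- The data of the semi-trivial mapping cone `Q ⊕_Ψ sM`: its component of degree `i` is
`Q^i ⊕ M^{i+1}`, the differential is `δ(q, sm) = (dq + Ψ(m), -s dm)`, the product extends the
product of `Q` and the action of `Q` on `sM` (`a · sm = (-1)^{|a|} s(a · m)`), and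
`(sm)(sm') = 0`. -/
def preCone (Ψ : M.ToAlg) : PreAlg.{u} where
  X i := Q.X i × M.X (i + 1)
  d := coneD Ψ
  mul := coneMul M
  one := (Q.one, 0)

theorem cone_linear (Ψ : M.ToAlg) (hΨ : Ψ.Balanced) : (preCone Ψ).LinearDiff := by
  constructor
  · intro i j h x y
    have h1 := map_add ((coneL Ψ.toL hΨ.toL).d i j h) x y
    have h2 := coneD_eq Ψ hΨ i j h (x + y)
    have h3 := coneD_eq Ψ hΨ i j h x
    have h4 := coneD_eq Ψ hΨ i j h y
    change coneD Ψ i j h (x + y) = coneD Ψ i j h x + coneD Ψ i j h y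
    rw [h3, h4]
    exact h2.trans h1
  · intro i j h c x
    have h1 := map_smul ((coneL Ψ.toL hΨ.toL).d i j h) c x
    have h2 := coneD_eq Ψ hΨ i j h (c • x)
    have h3 := coneD_eq Ψ hΨ i j h x
    change coneD Ψ i j h (c • x) = c • coneD Ψ i j h x
    rw [h3]
    exact h2.trans h1

theorem cone_biadditive (Ψ : M.ToAlg) (hΨ : Ψ.Balanced) : (preCone Ψ).BiadditiveMul :=
  ⟨fun i j k h x y z =>
      (congrFun (congrArg DFunLike.coe (map_add ((coneL Ψ.toL hΨ.toL).mul i j k h) x y)) z),
    fun i j k h x y z => map_add ((coneL Ψ.toL hΨ.toL).mul i j k h x) y z⟩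

theorem cone_homogeneous (Ψ : M.ToAlg) (hΨ : Ψ.Balanced) : (preCone Ψ).HomogeneousMul :=
  ⟨fun i j k h c x y =>
      (congrFun (congrArg DFunLike.coe (map_smul ((coneL Ψ.toL hΨ.toL).mul i j k h) c x)) y),
    fun i j k h c x y => map_smul ((coneL Ψ.toL hΨ.toL).mul i j k h x) c y⟩

theorem cone_d_d (Ψ : M.ToAlg) (hΨ : Ψ.Balanced) : (preCone Ψ).DiffSqZero := by
  intro i j k hij hjk x
  have h1 := (coneL Ψ.toL hΨ.toL).d_d i j k hij hjk x
  change coneD Ψ j k hjk (coneD Ψ i j hij x) = 0
  rw [coneD_eq Ψ hΨ i j hij x]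
  exact (coneD_eq Ψ hΨ j k hjk _).trans h1

theorem cone_one_mul (Ψ : M.ToAlg) (hΨ : Ψ.Balanced) : (preCone Ψ).UnitLaw :=
  (coneL Ψ.toL hΨ.toL).one_mul

theorem cone_leibniz (Ψ : M.ToAlg) (hΨ : Ψ.Balanced) : (preCone Ψ).Leibniz := by
  intro i j k i' j' k' h hi hj hk h1 h2 x y
  have h3 := (coneL Ψ.toL hΨ.toL).leibniz i j k i' j' k' h hi hj hk h1 h2 x y
  change coneD Ψ k k' hk (coneMul M i j k h x y) =
      coneMul M i' j k' h1 (coneD Ψ i i' hi x) y +
        sgn i • coneMul M i j' k' h2 x (coneD Ψ j j' hj y)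
  rw [coneD_eq Ψ hΨ i i' hi x, coneD_eq Ψ hΨ j j' hj y]
  exact (coneD_eq Ψ hΨ k k' hk _).trans h3

theorem cone_assoc (Ψ : M.ToAlg) (hΨ : Ψ.Balanced) : (preCone Ψ).Assoc :=
  (coneL Ψ.toL hΨ.toL).assoc

theorem cone_comm (Ψ : M.ToAlg) (hΨ : Ψ.Balanced) : (preCone Ψ).GradedComm :=
  (coneL Ψ.toL hΨ.toL).comm

/-- The semi-trivial mapping cone `Q ⊕_Ψ sM`. -/
def cone (Ψ : M.ToAlg) (hΨ : Ψ.Balanced) : CDGA.{u} where
  toPreAlg := preCone Ψ
  linear_d := cone_linear Ψ hΨ
  biadditive := cone_biadditive Ψ hΨ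
  homogeneous := cone_homogeneous Ψ hΨ
  d_d := cone_d_d Ψ hΨ
  one_mul := cone_one_mul Ψ hΨ
  assoc := cone_assoc Ψ hΨ
  comm := cone_comm Ψ hΨ
  leibniz := cone_leibniz Ψ hΨ

end Outer

/-- `x` is a cocycle. -/
def CDGA.Closed (A : CDGA.{u}) (i : ℤ) (x : A.X i) : Prop := A.d i (i + 1) rfl x = 0

/-- `x` is a coboundary. -/
def CDGA.Exact (A : CDGA.{u}) (i : ℤ) (x : A.X i) : Prop :=
  ∃ y : A.X (i - 1), A.d (i - 1) i (sub_add_cancel i 1) y = x

/-- A morphism of CDGAs. -/
structure CDGA.Hom (A B : CDGA.{u}) where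
  /-- the components -/
  f : ∀ i, A.X i → B.X i
  map_add : ∀ i (x y : A.X i), f i (x + y) = f i x + f i y
  map_smul : ∀ i (c : ℚ) (x : A.X i), f i (c • x) = c • f i x
  map_one : f 0 A.one = B.one
  map_mul : ∀ i j k (h : i + j = k) (x : A.X i) (y : A.X j),
    f k (A.mul i j k h x y) = B.mul i j k h (f i x) (f j y)
  map_d : ∀ i j (h : i + 1 = j) (x : A.X i), f j (A.d i j h x) = B.d i j h (f i x)

/-- `f` is a quasi-isomorphism: it induces a bijection in cohomology in every degree. -/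
def CDGA.Hom.IsQuasiIso {A B : CDGA.{u}} (f : A.Hom B) : Prop :=
  (∀ i (x : A.X i), A.Closed i x → B.Exact i (f.f i x) → A.Exact i x) ∧
    ∀ i (y : B.X i), B.Closed i y → ∃ x : A.X i, A.Closed i x ∧ B.Exact i (y - f.f i x)

/-- Two CDGAs are quasi-isomorphic if they are joined by a zigzag of quasi-isomorphisms. -/
def QuasiIsomorphic (A B : CDGA.{u}) : Prop :=
  Relation.EqvGen (fun A B : CDGA.{u} => ∃ f : A.Hom B, f.IsQuasiIso) A B

/-- The bundled version of a morphism. -/
def CDGA.Hom.toL {A B : CDGA.{u}} (f : A.Hom B) : A.toL.Hom B.toL where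
  f i :=
    { toFun := f.f i
      map_add' := f.map_add i
      map_smul' := f.map_smul i }
  map_one := f.map_one
  map_mul := f.map_mul
  map_d := f.map_d

theorem QuasiIsomorphic.toL {A B : CDGA.{u}} (h : QuasiIsomorphic A B) :
    QuasiIsomorphicL A.toL B.toL := by
  induction h with
  | rel A B hf =>
    obtain ⟨f, hf⟩ := hf
    exact Relation.EqvGen.rel _ _ ⟨f.toL, hf⟩
  | refl A => exact Relation.EqvGen.refl _
  | symm A B _ ih => exact Relation.EqvGen.symm _ _ ih
  | trans A B C _ _ ih1 ih2 => exact Relation.EqvGen.trans _ _ _ ih1 ih2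

/-- The identity as a morphism from the bundled version of the cone to the bundled cone. -/
noncomputable def coneHom {Q : CDGA.{u}} {M : DGMod Q} (Ψ : M.ToAlg) (hΨ : Ψ.Balanced) :
    (cone Ψ hΨ).toL.Hom (coneL Ψ.toL hΨ.toL) where
  f i := LinearMap.id
  map_one := rfl
  map_mul _ _ _ _ _ _ := rfl
  map_d i j h x := coneD_eq Ψ hΨ i j h x

theorem coneHom_isQuasiIso {Q : CDGA.{u}} {M : DGMod Q} (Ψ : M.ToAlg) (hΨ : Ψ.Balanced) :
    (coneHom Ψ hΨ).IsQuasiIso := by
  constructor
  · intro i x _ hx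
    obtain ⟨y, hy⟩ := hx
    exact ⟨y, (coneD_eq Ψ hΨ _ _ _ y).trans hy⟩
  · intro i y hy
    refine ⟨y, (coneD_eq Ψ hΨ _ _ _ y).trans hy, ?_⟩
    have h0 : y - (coneHom Ψ hΨ).f i y = 0 := sub_self y
    rw [h0]
    exact ⟨0, map_zero _⟩

/-- The differential vanishes, so that the CDGA is its own cohomology. -/
def CDGA.ZeroDifferential (A : CDGA.{u}) : Prop := ∀ i j h (x : A.X i), A.d i j h x = 0

/-- Poincaré duality in dimension `m` for a graded algebra `H` (a CDGA with zero differential):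
`H` is connected, finite-dimensional and there is an isomorphism `θ` of `H`-modules
`H ≅ s^{-m} #H`. -/
structure IsPoincareDuality (H : CDGA.{u}) (m : ℤ) : Prop where
  one_ne_zero : H.one ≠ 0
  connected : ∀ x : H.X 0, ∃ c : ℚ, x = c • H.one
  finite_dimensional : ∀ i, FiniteDimensional ℚ (H.X i)
  bounded : {i | Nontrivial (H.X i)}.Finite
  duality : ∃ θ : ∀ i, H.X i → (dualShift H m).X i,
    (∀ i, Function.Bijective (θ i)) ∧ (∀ i (x y : H.X i), θ i (x + y) = θ i x + θ i y) ∧
    ∀ i j k (h : i + j = k) (a : H.X i) (x : H.X j),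
      θ k (H.mul i j k h a x) = (dualShift H m).act i j k h a (θ j x)

/-- The intersection form `H^r × H^r → H^m ≅ ℚ` (with `r + r = m`; the isomorphism is `ε`) has
signature zero: `H^r` is the direct sum of a subspace on which the form is positive definite and a
subspace of the same dimension on which it is negative definite. -/
def SignatureZero (H : CDGA.{u}) (r m : ℤ) (h : r + r = m) : Prop :=
  ∃ (ε : H.X m ≃ₗ[ℚ] ℚ) (P N : Submodule ℚ (H.X r)), IsCompl P N ∧
    Module.finrank ℚ P = Module.finrank ℚ N ∧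
    (∀ x ∈ P, x ≠ 0 → 0 < ε (H.mul r r m h x x)) ∧
    (∀ x ∈ N, x ≠ 0 → ε (H.mul r r m h x x) < 0)

/-! ### The example -/

/-- Elements `a + x e + y f + w ω` of the algebra with `e² = ω`, `f² = -2 ω`, `e f = 0`. -/
@[ext] structure B4 : Type u where
  /-- coefficient of `1` -/
  a : ℚ
  /-- coefficient of `e` -/
  x : ℚ
  /-- coefficient of `f` -/
  y : ℚ
  /-- coefficient of `ω` -/
  w : ℚ

namespace B4

/-- coordinates -/
def eqv : B4.{u} ≃ ℚ × ℚ × ℚ × ℚ where
  toFun p := (p.a, p.x, p.y, p.w)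
  invFun q := ⟨q.1, q.2.1, q.2.2.1, q.2.2.2⟩
  left_inv _ := rfl
  right_inv _ := rfl

noncomputable instance : AddCommGroup B4.{u} := eqv.addCommGroup
noncomputable instance : Module ℚ B4.{u} := eqv.module ℚ
instance : FiniteDimensional ℚ B4.{u} := Module.Finite.equiv (eqv.linearEquiv ℚ).symm

section
variable (p q : B4.{u}) (r : ℚ)
@[simp] theorem add_a : (p + q).a = p.a + q.a := rfl
@[simp] theorem add_x : (p + q).x = p.x + q.x := rfl
@[simp] theorem add_y : (p + q).y = p.y + q.y := rfl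
@[simp] theorem add_w : (p + q).w = p.w + q.w := rfl
@[simp] theorem smul_a : (r • p).a = r * p.a := rfl
@[simp] theorem smul_x : (r • p).x = r * p.x := rfl
@[simp] theorem smul_y : (r • p).y = r * p.y := rfl
@[simp] theorem smul_w : (r • p).w = r * p.w := rfl
@[simp] theorem zero_a : (0 : B4.{u}).a = 0 := rfl
@[simp] theorem zero_x : (0 : B4.{u}).x = 0 := rfl
@[simp] theorem zero_y : (0 : B4.{u}).y = 0 := rfl
@[simp] theorem zero_w : (0 : B4.{u}).w = 0 := rfl
end

/-- The product. -/
def mul (p q : B4.{u}) : B4.{u} :=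
  ⟨p.a * q.a, p.a * q.x + p.x * q.a, p.a * q.y + p.y * q.a,
    p.a * q.w + p.w * q.a + p.x * q.x - 2 * (p.y * q.y)⟩

theorem mul_comm' (p q : B4.{u}) : mul p q = mul q p := by
  ext <;> simp only [mul] <;> ring

theorem mul_assoc' (p q r : B4.{u}) : mul (mul p q) r = mul p (mul q r) := by
  ext <;> simp only [mul] <;> ring

/-- The component of degree `i`. -/
def comp (i : ℤ) : Submodule ℚ B4.{u} where
  carrier := {b | (i ≠ 0 → b.a = 0) ∧ (i ≠ 2 → b.x = 0) ∧ (i ≠ 2 → b.y = 0) ∧ (i ≠ 4 → b.w = 0)}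
  add_mem' := by
    rintro p q ⟨h1, h2, h3, h4⟩ ⟨k1, k2, k3, k4⟩
    refine ⟨fun h => ?_, fun h => ?_, fun h => ?_, fun h => ?_⟩
    · rw [add_a, h1 h, k1 h, add_zero]
    · rw [add_x, h2 h, k2 h, add_zero]
    · rw [add_y, h3 h, k3 h, add_zero]
    · rw [add_w, h4 h, k4 h, add_zero]
  zero_mem' := ⟨fun _ => rfl, fun _ => rfl, fun _ => rfl, fun _ => rfl⟩
  smul_mem' := by
    rintro c p ⟨h1, h2, h3, h4⟩
    refine ⟨fun h => ?_, fun h => ?_, fun h => ?_, fun h => ?_⟩
    · rw [smul_a, h1 h, mul_zero]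
    · rw [smul_x, h2 h, mul_zero]
    · rw [smul_y, h3 h, mul_zero]
    · rw [smul_w, h4 h, mul_zero]

theorem mem_comp {i : ℤ} {b : B4.{u}} : b ∈ comp.{u} i ↔
    (i ≠ 0 → b.a = 0) ∧ (i ≠ 2 → b.x = 0) ∧ (i ≠ 2 → b.y = 0) ∧ (i ≠ 4 → b.w = 0) := Iff.rfl

theorem mul_mem {i j k : ℤ} (h : i + j = k) {p q : B4.{u}} (hp : p ∈ comp.{u} i)
    (hq : q ∈ comp.{u} j) : mul p q ∈ comp.{u} k := by
  obtain ⟨h1, h2, h3, h4⟩ := hp
  obtain ⟨k1, k2, k3, k4⟩ := hq
  refine ⟨fun hk => ?_, fun hk => ?_, fun hk => ?_, fun hk => ?_⟩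
  · simp only [mul]
    by_cases hi : i = 0
    · rw [k1 (by omega), mul_zero]
    · rw [h1 hi, zero_mul]
  · simp only [mul]
    have e1 : p.a * q.x = 0 := by
      by_cases hi : i = 0
      · rw [k2 (by omega), mul_zero]
      · rw [h1 hi, zero_mul]
    have e2 : p.x * q.a = 0 := by
      by_cases hj : j = 0
      · rw [h2 (by omega), zero_mul]
      · rw [k1 hj, mul_zero]
    rw [e1, e2, add_zero]
  · simp only [mul]
    have e1 : p.a * q.y = 0 := by
      by_cases hi : i = 0
      · rw [k3 (by omega), mul_zero]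
      · rw [h1 hi, zero_mul]
    have e2 : p.y * q.a = 0 := by
      by_cases hj : j = 0
      · rw [h3 (by omega), zero_mul]
      · rw [k1 hj, mul_zero]
    rw [e1, e2, add_zero]
  · simp only [mul]
    have e1 : p.a * q.w = 0 := by
      by_cases hi : i = 0
      · rw [k4 (by omega), mul_zero]
      · rw [h1 hi, zero_mul]
    have e2 : p.w * q.a = 0 := by
      by_cases hj : j = 0
      · rw [h4 (by omega), zero_mul]
      · rw [k1 hj, mul_zero]
    have e3 : p.x * q.x = 0 := by
      by_cases hi : i = 2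
      · rw [k2 (by omega), mul_zero]
      · rw [h2 hi, zero_mul]
    have e4 : p.y * q.y = 0 := by
      by_cases hi : i = 2
      · rw [k3 (by omega), mul_zero]
      · rw [h3 hi, zero_mul]
    rw [e1, e2, e3, e4]
    norm_num

theorem eq_zero_of_odd {i : ℤ} (hi : Odd i) (p : comp.{u} i) : p = 0 := by
  obtain ⟨c, hc⟩ := hi
  obtain ⟨h1, h2, h3, h4⟩ := p.2
  exact Subtype.ext (B4.ext (h1 (by omega)) (h2 (by omega)) (h3 (by omega)) (h4 (by omega)))

end B4

/-- The graded algebra `ℚ ⊕ ℚ e ⊕ ℚ f ⊕ ℚ ω` with `e, f` in degree `2`, `ω` in degree `4`,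
`e² = ω`, `f² = -2 ω`, `e f = 0` and zero differential. -/
noncomputable def exampleL : LCDGA.{u} where
  X i := B4.comp.{u} i
  d i j _ := 0
  mul i j k h := LinearMap.mk₂ ℚ (fun p q => ⟨B4.mul p.1 q.1, B4.mul_mem h p.2 q.2⟩)
    (fun p q r => Subtype.ext (by ext <;> simp [B4.mul] <;> ring))
    (fun c p r => Subtype.ext (by ext <;> simp [B4.mul] <;> ring))
    (fun p q r => Subtype.ext (by ext <;> simp [B4.mul] <;> ring))
    (fun c p r => Subtype.ext (by ext <;> simp [B4.mul] <;> ring))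
  one := ⟨⟨1, 0, 0, 0⟩, by
    rw [B4.mem_comp]
    simp⟩
  d_d := by
    intros
    rfl
  one_mul i h x := Subtype.ext (by ext <;> simp [B4.mul])
  assoc := by
    intros
    exact Subtype.ext (B4.mul_assoc' _ _ _)
  comm i j k h h' x y := by
    rcases Int.even_or_odd i with hi | hi
    · rw [sgn_of_even (hi.mul_right j), one_smul]
      exact Subtype.ext (B4.mul_comm' _ _)
    · rw [B4.eq_zero_of_odd hi x]
      simp only [map_zero, LinearMap.zero_apply, smul_zero]
  leibniz := by
    intros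
    refine Subtype.ext ?_
    ext <;> simp [B4.mul]

/-- The underlying element of `B4`. -/
def val {i : ℤ} (x : exampleL.{u}.X i) : B4.{u} := (show B4.comp.{u} i from x).1

theorem val_ext {i : ℤ} {x y : exampleL.{u}.X i} (h : val x = val y) : x = y := Subtype.ext h
theorem val_mem {i : ℤ} (x : exampleL.{u}.X i) : val x ∈ B4.comp.{u} i := x.2
theorem val_mul {i j k : ℤ} (h : i + j = k) (x : exampleL.{u}.X i) (y : exampleL.{u}.X j) :
    val (exampleL.mul i j k h x y) = B4.mul (val x) (val y) := rfl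
theorem val_add {i : ℤ} (x y : exampleL.{u}.X i) : val (x + y) = val x + val y := rfl
theorem val_smul {i : ℤ} (c : ℚ) (x : exampleL.{u}.X i) : val (c • x) = c • val x := rfl
theorem val_zero {i : ℤ} : val (0 : exampleL.{u}.X i) = 0 := rfl
theorem val_one : val exampleL.{u}.one = ⟨1, 0, 0, 0⟩ := rfl

theorem example_exact {i : ℤ} {x : exampleL.{u}.X i} (h : exampleL.Exact i x) : x = 0 := by
  obtain ⟨y, rfl⟩ := h
  rfl

/-- The generator of degree 0. -/
def b1 : exampleL.{u}.X 0 := ⟨⟨1, 0, 0, 0⟩, by rw [B4.mem_comp]; simp⟩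
/-- The first generator of degree 2. -/
def be : exampleL.{u}.X 2 := ⟨⟨0, 1, 0, 0⟩, by rw [B4.mem_comp]; simp⟩
/-- The second generator of degree 2. -/
def bf : exampleL.{u}.X 2 := ⟨⟨0, 0, 1, 0⟩, by rw [B4.mem_comp]; simp⟩
/-- The generator of degree 4. -/
def bw : exampleL.{u}.X 4 := ⟨⟨0, 0, 0, 1⟩, by rw [B4.mem_comp]; simp⟩

theorem val_b1 : val b1.{u} = ⟨1, 0, 0, 0⟩ := rfl
theorem val_be : val be.{u} = ⟨0, 1, 0, 0⟩ := rfl
theorem val_bf : val bf.{u} = ⟨0, 0, 1, 0⟩ := rfl
theorem val_bw : val bw.{u} = ⟨0, 0, 0, 1⟩ := rfl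

theorem sqrt_two_irrational (x y : ℚ) (h : x * x = 2 * (y * y)) : x = 0 ∧ y = 0 := by
  by_cases hy : y = 0
  · subst hy
    refine ⟨?_, rfl⟩
    have : x * x = 0 := by rw [h]; ring
    exact mul_self_eq_zero.mp this
  · exfalso
    have h1 : (x / y) ^ 2 = 2 := by
      field_simp
      linarith
    have h2 : ((x / y : ℚ) : ℝ) ^ 2 = 2 := by exact_mod_cast h1
    have h3 : |((x / y : ℚ) : ℝ)| = Real.sqrt 2 := by
      rw [← h2, Real.sqrt_sq_eq_abs]
    have h4 := irrational_sqrt_two
    rw [← h3] at h4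
    apply h4
    exact ⟨|x / y|, by push_cast; rfl⟩

theorem example_aniso : Aniso 2 4 (by norm_num) exampleL.{u} := by
  refine ⟨?_, ?_, ?_, ?_⟩
  · intro h
    have h1 := congrArg (fun t => (val t).a) (example_exact h)
    simp [val_one, val_zero] at h1
  · intro x y _ _ hy
    have hx4 := val_mem x
    have hy4 := val_mem y
    rw [B4.mem_comp] at hx4 hy4
    have hyw : (val y).w ≠ 0 := by
      intro h0
      apply hy
      have : y = 0 := val_ext (B4.ext (hy4.1 (by norm_num)) (hy4.2.1 (by norm_num))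
        (hy4.2.2.1 (by norm_num)) h0)
      rw [this]
      exact ⟨0, rfl⟩
    refine ⟨(val x).w / (val y).w, ?_⟩
    have hxy : x = ((val x).w / (val y).w) • y := by
      apply val_ext
      rw [val_smul]
      refine B4.ext ?_ ?_ ?_ ?_
      · rw [B4.smul_a, hx4.1 (by norm_num), hy4.1 (by norm_num), mul_zero]
      · rw [B4.smul_x, hx4.2.1 (by norm_num), hy4.2.1 (by norm_num), mul_zero]
      · rw [B4.smul_y, hx4.2.2.1 (by norm_num), hy4.2.2.1 (by norm_num), mul_zero]
      · rw [B4.smul_w, div_mul_cancel₀ _ hyw]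
    have h0 : x - ((val x).w / (val y).w) • y = 0 := sub_eq_zero.mpr hxy
    rw [h0]
    exact ⟨0, rfl⟩
  · refine ⟨be, rfl, fun h => ?_⟩
    have h1 := congrArg (fun t => (val t).x) (example_exact h)
    simp [val_be, val_zero] at h1
  · intro z _ h
    have h1 := congrArg (fun t => (val t).w) (example_exact h)
    have hz := val_mem z
    rw [B4.mem_comp] at hz
    simp only [val_mul, B4.mul, val_zero, B4.zero_w, hz.1 (by norm_num), hz.2.2.2 (by norm_num)] at h1
    obtain ⟨hx, hy⟩ := sqrt_two_irrational (val z).x (val z).y (by linarith)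
    have : z = 0 := val_ext (B4.ext (hz.1 (by norm_num)) hx hy (hz.2.2.2 (by norm_num)))
    rw [this]
    exact ⟨0, rfl⟩

instance (i : ℤ) : FiniteDimensional ℚ (exampleL.{u}.X i) :=
  inferInstanceAs (FiniteDimensional ℚ (B4.comp.{u} i))

/-- The duality map. -/
noncomputable def thetaMap (i : ℤ) : exampleL.{u}.X i →ₗ[ℚ] (dualShiftL exampleL.{u} 4).X i where
  toFun x := od i
    { toFun := fun y => (B4.mul (val x) (val y)).w
      map_add' := fun y z => by
        simp only [val_add, B4.mul, B4.add_a, B4.add_x, B4.add_y, B4.add_w]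
        ring
      map_smul' := fun c y => by
        simp only [val_smul, B4.mul, B4.smul_a, B4.smul_x, B4.smul_y, B4.smul_w, RingHom.id_apply,
          smul_eq_mul]
        ring }
  map_add' x y := ev_ext _ fun z => by
    change (B4.mul (val (x + y)) (val z)).w = (B4.mul (val x) (val z)).w + (B4.mul (val y) (val z)).w
    simp only [val_add, B4.mul, B4.add_a, B4.add_x, B4.add_y, B4.add_w]
    ring
  map_smul' c x := ev_ext _ fun z => by
    change (B4.mul (val (c • x)) (val z)).w = c * (B4.mul (val x) (val z)).w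
    simp only [val_smul, B4.mul, B4.smul_a, B4.smul_x, B4.smul_y, B4.smul_w]
    ring

theorem ev_thetaMap (i : ℤ) (x : exampleL.{u}.X i) (y : exampleL.{u}.X (4 - i)) :
    ev i (thetaMap i x) y = (B4.mul (val x) (val y)).w := rfl

theorem thetaMap_injective (i : ℤ) : Function.Injective (thetaMap.{u} i) := by
  rw [← LinearMap.ker_eq_bot, LinearMap.ker_eq_bot']
  intro x hx
  have h : ∀ y : exampleL.{u}.X (4 - i), (B4.mul (val x) (val y)).w = 0 := by
    intro y
    rw [← ev_thetaMap, hx]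
    rfl
  have hx4 := val_mem x
  rw [B4.mem_comp] at hx4
  by_cases h0 : i = 0
  · subst h0
    have h1 := h bw
    simp [B4.mul, val_bw] at h1
    exact val_ext (B4.ext h1 (hx4.2.1 (by norm_num)) (hx4.2.2.1 (by norm_num))
      (hx4.2.2.2 (by norm_num)))
  by_cases h2 : i = 2
  · subst h2
    have h1 := h be
    have h3 := h bf
    simp [B4.mul, val_be] at h1
    simp [B4.mul, val_bf] at h3
    exact val_ext (B4.ext (hx4.1 (by norm_num)) h1 h3 (hx4.2.2.2 (by norm_num)))
  by_cases h4 : i = 4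
  · subst h4
    have h1 := h b1
    simp [B4.mul, val_b1] at h1
    exact val_ext (B4.ext (hx4.1 (by norm_num)) (hx4.2.1 (by norm_num)) (hx4.2.2.1 (by norm_num))
      h1)
  · exact val_ext (B4.ext (hx4.1 h0) (hx4.2.1 h2) (hx4.2.2.1 h2) (hx4.2.2.2 h4))

instance (i : ℤ) : FiniteDimensional ℚ ((dualShiftL exampleL.{u} 4).X i) :=
  inferInstanceAs (FiniteDimensional ℚ (Module.Dual ℚ (exampleL.{u}.X (4 - i))))

theorem finrank_dual (i : ℤ) : Module.finrank ℚ ((dualShiftL exampleL.{u} 4).X i) =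
    Module.finrank ℚ (exampleL.{u}.X (4 - i)) :=
  Subspace.dual_finrank_eq

theorem finrank_le (i : ℤ) : Module.finrank ℚ (exampleL.{u}.X i) ≤
    Module.finrank ℚ (exampleL.{u}.X (4 - i)) := by
  rw [← finrank_dual]
  exact LinearMap.finrank_le_finrank_of_injective (thetaMap_injective i)

theorem finrank_eq (i : ℤ) : Module.finrank ℚ (exampleL.{u}.X i) =
    Module.finrank ℚ ((dualShiftL exampleL.{u} 4).X i) := by
  rw [finrank_dual]
  refine le_antisymm (finrank_le i) ?_
  have h := finrank_le.{u} (4 - i)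
  rwa [sub_sub_cancel] at h

/-- The duality isomorphism. -/
noncomputable def theta (i : ℤ) : exampleL.{u}.X i ≃ₗ[ℚ] (dualShiftL exampleL.{u} 4).X i :=
  LinearEquiv.ofInjectiveOfFinrankEq (thetaMap i) (thetaMap_injective i) (finrank_eq i)

theorem theta_apply (i : ℤ) (x : exampleL.{u}.X i) : theta i x = thetaMap i x := rfl

/-- The coefficient of `ω`. -/
noncomputable def epsilon : exampleL.{u}.X 4 ≃ₗ[ℚ] ℚ where
  toFun x := (val x).w
  map_add' x y := rfl
  map_smul' c x := rfl
  invFun c := c • bw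
  left_inv x := by
    have hx := val_mem x
    rw [B4.mem_comp] at hx
    refine val_ext ?_
    rw [val_smul, val_bw]
    refine B4.ext ?_ ?_ ?_ ?_
    · simp [hx.1]
    · simp [hx.2.1]
    · simp [hx.2.2.1]
    · simp
  right_inv c := by
    change (c • val bw.{u}).w = c
    simp [val_bw]


/-- The graded algebra `ℚ ⊕ ℚ e ⊕ ℚ f ⊕ ℚ ω` with `e, f` in degree `2`, `ω` in degree `4`,
`e² = ω`, `f² = -2 ω`, `e f = 0` and zero differential. -/
noncomputable def exampleAlg : CDGA.{u} where
  X := exampleL.{u}.X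
  d i j h x := exampleL.{u}.d i j h x
  mul i j k h x y := exampleL.{u}.mul i j k h x y
  one := exampleL.{u}.one
  linear_d := ⟨fun i j h x y => map_add _ x y, fun i j h c x => map_smul _ c x⟩
  biadditive := ⟨fun i j k h x y z =>
      (congrFun (congrArg DFunLike.coe (map_add (exampleL.{u}.mul i j k h) x y)) z),
    fun i j k h x y z => map_add (exampleL.{u}.mul i j k h x) y z⟩
  homogeneous := ⟨fun i j k h c x y =>
      (congrFun (congrArg DFunLike.coe (map_smul (exampleL.{u}.mul i j k h) c x)) y),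
    fun i j k h c x y => map_smul (exampleL.{u}.mul i j k h x) c y⟩
  d_d := exampleL.{u}.d_d
  one_mul := exampleL.{u}.one_mul
  assoc := exampleL.{u}.assoc
  comm := exampleL.{u}.comm
  leibniz := exampleL.{u}.leibniz

theorem exampleAlg_toL : exampleAlg.{u}.toL = exampleL.{u} := rfl

theorem theta_bijective (i : ℤ) : Function.Bijective (thetaMap.{u} i) := (theta i).bijective

theorem ex_one_ne_zero : exampleL.{u}.one ≠ 0 := by
  intro h
  have h1 := congrArg (fun t => (val t).a) h
  simp [val_one, val_zero] at h1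

theorem ex_connected (x : exampleL.{u}.X 0) : ∃ c : ℚ, x = c • exampleL.{u}.one := by
  have hx := val_mem x
  rw [B4.mem_comp] at hx
  refine ⟨(val x).a, val_ext ?_⟩
  rw [val_smul, val_one]
  refine B4.ext ?_ ?_ ?_ ?_
  · simp
  · simp [hx.2.1]
  · simp [hx.2.2.1]
  · simp [hx.2.2.2]

theorem ex_bounded (i : ℤ) (h0 : i ≠ 0) (h2 : i ≠ 2) (h4 : i ≠ 4) (x y : exampleL.{u}.X i) :
    x = y := by
  have hx := val_mem x
  have hy := val_mem y
  rw [B4.mem_comp] at hx hy
  exact val_ext (B4.ext ((hx.1 h0).trans (hy.1 h0).symm) ((hx.2.1 h2).trans (hy.2.1 h2).symm)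
    ((hx.2.2.1 h2).trans (hy.2.2.1 h2).symm) ((hx.2.2.2 h4).trans (hy.2.2.2 h4).symm))

theorem ex_theta_act (i j k : ℤ) (h : i + j = k) (a : exampleL.{u}.X i) (x : exampleL.{u}.X j) :
    thetaMap k (exampleL.mul i j k h a x) = (dualShiftL exampleL 4).act i j k h a (thetaMap j x) := by
  refine ev_ext _ fun y => ?_
  rw [dual_act_apply, ev_thetaMap, ev_thetaMap, val_mul, val_mul]
  rcases Int.even_or_odd i with hi | hi
  · rw [sgn_of_even (hi.mul_right j), one_mul, ← B4.mul_assoc', B4.mul_comm' (val x)]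
  · have : a = 0 := B4.eq_zero_of_odd hi a
    rw [this, val_zero]
    simp [B4.mul]

theorem ex_signature : ∃ (P N : Submodule ℚ (exampleL.{u}.X 2)), IsCompl P N ∧
    Module.finrank ℚ P = Module.finrank ℚ N ∧
    (∀ x ∈ P, x ≠ 0 → 0 < epsilon (exampleL.mul 2 2 4 (by norm_num) x x)) ∧
    (∀ x ∈ N, x ≠ 0 → epsilon (exampleL.mul 2 2 4 (by norm_num) x x) < 0) := by
  have he : be.{u} ≠ 0 := by
    intro h
    have h1 := congrArg (fun t => (val t).x) h
    simp [val_be, val_zero] at h1
  have hf : bf.{u} ≠ 0 := by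
    intro h
    have h1 := congrArg (fun t => (val t).y) h
    simp [val_bf, val_zero] at h1
  refine ⟨Submodule.span ℚ {be}, Submodule.span ℚ {bf}, ?_, ?_, ?_, ?_⟩
  · constructor
    · rw [Submodule.disjoint_def]
      intro x h1 h2
      obtain ⟨c, rfl⟩ := Submodule.mem_span_singleton.mp h1
      obtain ⟨d, hd⟩ := Submodule.mem_span_singleton.mp h2
      have h3 := congrArg (fun t => (val t).x) hd
      simp only [val_smul, B4.smul_x, val_be, val_bf, mul_zero, mul_one] at h3
      rw [← h3, zero_smul]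
    · rw [codisjoint_iff, Submodule.eq_top_iff']
      intro x
      have hx := val_mem x
      rw [B4.mem_comp] at hx
      have h1 : x = (val x).x • be + (val x).y • bf := by
        apply val_ext
        rw [val_add, val_smul, val_smul, val_be, val_bf]
        refine B4.ext ?_ ?_ ?_ ?_
        · simp [hx.1]
        · simp
        · simp
        · simp [hx.2.2.2]
      rw [h1]
      exact Submodule.add_mem_sup (Submodule.smul_mem _ _ (Submodule.mem_span_singleton_self _))
        (Submodule.smul_mem _ _ (Submodule.mem_span_singleton_self _))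
  · exact (finrank_span_singleton he).trans (finrank_span_singleton hf).symm
  · intro x hx hx0
    obtain ⟨c, rfl⟩ := Submodule.mem_span_singleton.mp hx
    have hc : c ≠ 0 := by
      rintro rfl
      exact hx0 (zero_smul _ _)
    change 0 < (B4.mul (c • val be.{u}) (c • val be.{u})).w
    have : 0 < c * c := mul_self_pos.mpr hc
    simpa [B4.mul, val_be] using this
  · intro x hx hx0
    obtain ⟨c, rfl⟩ := Submodule.mem_span_singleton.mp hx
    have hc : c ≠ 0 := by
      rintro rfl
      exact hx0 (zero_smul _ _)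
    change (B4.mul (c • val bf.{u}) (c • val bf.{u})).w < 0
    have : 0 < c * c := mul_self_pos.mpr hc
    simp [B4.mul, val_bf]
    exact hc

theorem example_PD : IsPoincareDuality exampleAlg.{u} 4 where
  one_ne_zero h := ex_one_ne_zero h
  connected x := ex_connected x
  finite_dimensional i := inferInstanceAs (FiniteDimensional ℚ (exampleL.{u}.X i))
  bounded := by
    refine Set.Finite.subset (Set.toFinite {0, 2, 4}) ?_
    intro i hi
    by_contra hcon
    simp only [Set.mem_insert_iff, Set.mem_singleton_iff, not_or] at hcon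
    obtain ⟨h0, h2, h4⟩ := hcon
    obtain ⟨x, y, hxy⟩ := (show Nontrivial (exampleL.{u}.X i) from hi).exists_pair_ne
    exact hxy (ex_bounded i h0 h2 h4 x y)
  duality := ⟨fun i => thetaMap i, theta_bijective, fun i x y => map_add (thetaMap i) x y,
      fun i j k h a x => ex_theta_act i j k h a x⟩

theorem example_signature : SignatureZero exampleAlg.{u} 2 4 (by norm_num) := by
  obtain ⟨P, N, h1, h2, h3, h4⟩ := ex_signature.{u}
  exact ⟨epsilon, P, N, h1, h2, h3, h4⟩

/-- **There is a CDGA (with zero differential) whose cohomology satisfies Poincaré duality in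
dimension `4` and has signature `0`, and which is not quasi-isomorphic to `Q ⊕_Ψ s s^{-5} #Q` for
any CDGA `Q` and any balanced morphism `Ψ : s^{-5} #Q → Q` of `Q`-dg-modules.** -/
theorem result : ∃ A : CDGA.{u}, A.IsNonneg ∧ A.ZeroDifferential ∧ IsPoincareDuality A 4 ∧
    SignatureZero A 2 4 (by norm_num) ∧
    ∀ (Q : CDGA.{u}) (Ψ : (dualShift Q (4 + 1)).ToAlg) (hΨ : Ψ.Balanced),
      ¬ QuasiIsomorphic A (cone Ψ hΨ) := by
  refine ⟨exampleAlg, ?_, fun i j h x => rfl, example_PD, example_signature, fun Q Ψ hΨ hq => ?_⟩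
  · intro i hi x
    have hx := val_mem (i := i) x
    rw [B4.mem_comp] at hx
    exact val_ext (i := i) (B4.ext (hx.1 (by omega)) (hx.2.1 (by omega)) (hx.2.2.1 (by omega))
      (hx.2.2.2 (by omega)))
  · have h1 : Aniso 2 4 (by norm_num) (cone Ψ hΨ).toL :=
      (aniso_of_quasiIsomorphicL (by norm_num) hq.toL).mp example_aniso
    have h2 := (aniso_iff (by norm_num) (coneHom Ψ hΨ) (coneHom_isQuasiIso Ψ hΨ)).mp h1
    exact cone_not_aniso (by norm_num) Ψ.toL hΨ.toL h2

end Pool.Agent.Results.MP_43ef35_gt.AnisotropicForm
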